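import Pool.Agent.T9h62.PW.Eqv

/-!
# The fourth moment of Hecke-Maass forms and local plane waves (MP_a54f13_nt)

The plane is `ℂ`, with the upper half plane `HH` and `dμ = dx dy / y²`. `dx f z`, `dy f z` are the
partial derivatives `fderiv ℝ f z 1`, `fderiv ℝ f z I`; `TF U φ` says that `φ : ℂ → ℝ` is smooth
with compact support contained in `U`. `RO lam f = lam^{-1/2} y (∂x f - i ∂y f)` is the normalised
frame derivative.

A plane wave `exp (i √lam ⟨x, e_φ⟩)` of the flat plane satisfies `RO^k f = (i e^{-iφ})^k f` (with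
`y = 1`), and Laplace eigenfunctions of eigenvalue `lam` look like superpositions of such waves at
the scale `lam^{-1/2}`. So `PW M lam f θ z = M⁻¹ ∑_{k<M} (-i e^{iθ})^k RO^k f z`, a Cesaro mean, is
the sum of the local plane wave components of `f` at `z`, the component of direction `φ` having the
weight `M⁻¹ ∑_{k<M} e^{ik(θ - φ)}`: it isolates the direction `θ` with resolution `1/M`. For the
Gaussian random wave the mean square of `PW M` is `1/M`; for `f = cos (√lam ⟨x, e_φ⟩)` and `θ = φ`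
its modulus is about `1/2` for all large `M`.

The hypothesis `hqe` is quantum unique ergodicity in its microlocal form:
`∫ φ f (RO^k f) dμ → ∫ φ dμ` for `k = 0`, and `→ 0` for `k ≥ 1`.

The theorem shows that under this hypothesis the fourth moment conjecture (`n = 4` of the random
wave conjecture) is equivalent to the absence of local plane waves, uniformly in the direction, in
the sense of `L⁴`; and it computes the mean fourth power of the plane wave coefficients over the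
directions, exactly, in terms of the fourth moment. No bound of the fourth moments is assumed.
-/

set_option autoImplicit false
open MeasureTheory Filter Topology Complex
open scoped ContDiff

namespace Pool.Agent.Results.MP_a54f13_nt.LocalPlaneWaves

open Pool.Agent.W745.RW (TF dx dy lap)

/-- the open upper half plane -/
def HH : Set ℂ := {z | 0 < z.im}

/-- the operator `f ↦ lam^{-1/2} y (∂x f - i ∂y f)` -/
noncomputable def RO (lam : ℝ) (f : ℂ → ℂ) (z : ℂ) : ℂ :=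
  ((z.im / √lam : ℝ) : ℂ) * (dx f z - I * dy f z)

/-- the local plane wave coefficient of `f` at `z` in the direction `θ`, with angular
resolution `1/M`: the Cesaro mean `M⁻¹ ∑_{k<M} (-i e^{iθ})^k RO^k f z` -/
noncomputable def PW (M : ℕ) (lam : ℝ) (f : ℂ → ℝ) (θ : ℝ) (z : ℂ) : ℂ :=
  (1 / M) * ∑ k ∈ Finset.range M, (-I * Complex.exp (θ * I)) ^ k *
    (RO lam)^[k] (fun w => (f w : ℂ)) z

/-- the mean over the directions of the fourth power of the plane wave coefficients, integrated: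
`∫ ψ(z) (2π)⁻¹ ∫_0^{2π} |PW M lam f θ z|⁴ dθ dμ(z)` -/
noncomputable def PE (M : ℕ) (lam : ℝ) (f : ℂ → ℝ) (ψ : ℂ → ℝ) : ℝ :=
  ∫ z, ψ z * ((1 / (2 * Real.pi)) *
    ∫ θ in (0 : ℝ)..(2 * Real.pi), ‖PW M lam f θ z‖ ^ 4) / z.im ^ 2

/-- the maximal plane wave energy `∫ ψ(z) sup_θ |PW M lam f θ z|⁴ dμ(z)`, in `[0, ∞]`,
for `ψ ≥ 0` -/
noncomputable def PM (M : ℕ) (lam : ℝ) (f : ℂ → ℝ) (ψ : ℂ → ℝ) : ENNReal :=
  ∫⁻ z, ENNReal.ofReal (ψ z / z.im ^ 2) * ⨆ θ : ℝ, ENNReal.ofReal (‖PW M lam f θ z‖ ^ 4)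

/-- **Result.** Let `f n` be real solutions of `-y²(∂x² + ∂y²) f = (1/4 + t_n²) f` on the upper
half plane, `t_n → ∞`, satisfying microlocal quantum unique ergodicity.

(1) For every `M ≥ 1` and every test function `ψ`, the mean fourth power `PE` of the plane wave
coefficients is `(2M² + 1)/M⁴ ∫ ψ dμ` plus `(2M² + 7)/(9M³)` times the defect
`∫ ψ f⁴ dμ - 3 ∫ ψ dμ` of the fourth moment, up to an error `o(1)`.

(2) `∫ ψ f_n⁴ dμ → 3 ∫ ψ dμ` for all test functions `ψ` if and only if for all test functions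
`ψ ≥ 0` the maximal plane wave energy `∫ ψ sup_θ |PW M|⁴ dμ` tends to `0` as `n → ∞` and then
`M → ∞`.

(3) For this it suffices that for all test functions `ψ ≥ 0` and all `ε > 0` there is some `M ≥ 1`
such that `∫ ψ sup_θ |PW M|⁴ dμ ≤ ε` for all large `n`. -/
theorem result (t : ℕ → ℝ) (ht : Tendsto t atTop atTop) (f : ℕ → ℂ → ℝ)
    (hf : ∀ n, ContDiffOn ℝ ∞ (f n) HH)
    (heq : ∀ n, ∀ z ∈ HH,
      -(z.im ^ 2 * (dx (dx (f n)) z + dy (dy (f n)) z)) = (1 / 4 + t n ^ 2) * f n z)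
    (hqe : ∀ φ, TF HH φ → ∀ k : ℕ, Tendsto (fun n => ∫ z, ((φ z / z.im ^ 2 : ℝ) : ℂ) *
      ((f n z : ℂ) * (RO (1 / 4 + t n ^ 2))^[k] (fun w => (f n w : ℂ)) z)) atTop
      (𝓝 (if k = 0 then ((∫ z, φ z / z.im ^ 2 : ℝ) : ℂ) else 0))) :
    (∀ M : ℕ, 1 ≤ M → ∀ ψ, TF HH ψ → Tendsto (fun n => PE M (1 / 4 + t n ^ 2) (f n) ψ -
        (2 * M ^ 2 + 7) / (9 * M ^ 3) *
          ((∫ z, ψ z * f n z ^ 4 / z.im ^ 2) - 3 * ∫ z, ψ z / z.im ^ 2)) atTop
        (𝓝 ((2 * M ^ 2 + 1) / M ^ 4 * ∫ z, ψ z / z.im ^ 2))) ∧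
    ((∀ ψ, TF HH ψ → Tendsto (fun n => ∫ z, ψ z * f n z ^ 4 / z.im ^ 2) atTop
        (𝓝 (3 * ∫ z, ψ z / z.im ^ 2))) ↔
      ∀ ψ, TF HH ψ → (∀ z, 0 ≤ ψ z) → ∀ ε : ℝ, 0 < ε → ∃ M₀ : ℕ, ∀ M ≥ M₀,
        ∀ᶠ n in atTop, PM M (1 / 4 + t n ^ 2) (f n) ψ ≤ ENNReal.ofReal ε) ∧
    ((∀ ψ, TF HH ψ → (∀ z, 0 ≤ ψ z) → ∀ ε : ℝ, 0 < ε → ∃ M : ℕ, 1 ≤ M ∧
        ∀ᶠ n in atTop, PM M (1 / 4 + t n ^ 2) (f n) ψ ≤ ENNReal.ofReal ε) →
      ∀ ψ, TF HH ψ → Tendsto (fun n => ∫ z, ψ z * f n z ^ 4 / z.im ^ 2) atTop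
        (𝓝 (3 * ∫ z, ψ z / z.im ^ 2))) := by
  have H : Pool.Agent.T9h62.PW.QE (fun n => 1 / 4 + t n ^ 2) f := by
    refine ⟨fun n => by positivity, tendsto_atTop_add_const_left _ _
      ((tendsto_pow_atTop two_ne_zero).comp ht), hf, fun n z hz => ?_, hqe⟩
    have h1 := heq n z hz
    have h2 : lap (f n) z = dx (dx (f n)) z + dy (dy (f n)) z := rfl
    rw [h2]; linarith
  have e4 : ∀ n ψ, Pool.Agent.T9h62.SQ.I4 (f n) ψ = ∫ z, ψ z * f n z ^ 4 / z.im ^ 2 := by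
    intro n ψ
    unfold Pool.Agent.T9h62.SQ.I4
    congr 1; funext z; ring
  have key : (∀ ψ, TF HH ψ → (∀ z, 0 ≤ ψ z) → ∀ ε : ℝ, 0 < ε → ∃ M : ℕ, 1 ≤ M ∧
        ∀ᶠ n in atTop, PM M (1 / 4 + t n ^ 2) (f n) ψ ≤ ENNReal.ofReal ε) →
      ∀ ψ, TF HH ψ → Tendsto (fun n => ∫ z, ψ z * f n z ^ 4 / z.im ^ 2) atTop
        (𝓝 (3 * ∫ z, ψ z / z.im ^ 2)) := by
    intro h ψ hψ
    have := Pool.Agent.T9h62.PW.b_a H h ψ hψ
    simp only [e4] at this
    exact this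
  refine ⟨fun M hM ψ hψ => ?_, ⟨fun h ψ hψ hψ0 ε hε => ?_, fun h => key fun ψ hψ hψ0 ε hε => ?_⟩,
    key⟩
  · have := Pool.Agent.T9h62.PW.PE_lim H hM hψ
    simp only [e4] at this
    exact this
  · refine Pool.Agent.T9h62.PW.a_b H (fun φ hφ => ?_) hψ hψ0 hε
    simp only [e4]
    exact h φ hφ
  · obtain ⟨M₀, hM₀⟩ := h ψ hψ hψ0 ε hε
    exact ⟨max M₀ 1, le_max_right _ _, hM₀ _ (le_max_left _ _)⟩

end Pool.Agent.Results.MP_a54f13_nt.LocalPlaneWaves
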