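import Pool.Agent.T9h62.S6.Main

/-!
# The sixth and higher even moments of Hecke-Maass forms: lower bounds above convexity
(MP_a54f13_nt)

The plane is `ℂ`, with the upper half plane `HH`. `dx f z`, `dy f z` are the partial derivatives
`fderiv ℝ f z 1`, `fderiv ℝ f z I`; `TF HH φ` says that `φ : ℂ → ℝ` is smooth with compact
support contained in `HH`. The operator `RO lam f = lam^{-1/2} y (∂x f - i ∂y f)` is the
normalised frame derivative (the leading part of the normalised raising operator).

The hypothesis `hqe` is quantum unique ergodicity in its microlocal form: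
`∫ φ f (RO^k f) dμ → ∫ φ dμ` for `k = 0`, and `→ 0` for `k ≥ 1`; here `dμ = dx dy / y²`.

The normalised sixth moment is shown to be asymptotically at least `11` (Gaussian value `15`); from
the fourth moment bound `3` convexity alone gives `9`. The proof is a certificate: a positive
combination of integrals `∫ φ |c w_s + C(w)|²` with `C` cubic in the normalised derivatives
`w_k = RO^k f`, whose sextic part is `f⁶` plus total derivatives, and whose quartic part is known.
No bound on any moment is assumed.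
-/

set_option autoImplicit false
open MeasureTheory Filter Topology Complex
open scoped ContDiff ENNReal

namespace Pool.Agent.Results.MP_a54f13_nt.SixthMoment

open Pool.Agent.W745.RW Pool.Agent.TH294.RS Pool.Agent.T9h62.S6

/-- the open upper half plane -/
def HH : Set ℂ := {z | 0 < z.im}

/-- the operator `f ↦ lam^{-1/2} y (∂x f - i ∂y f)` -/
noncomputable def RO (lam : ℝ) (f : ℂ → ℂ) (z : ℂ) : ℂ :=
  ((z.im / √lam : ℝ) : ℂ) * (dx f z - I * dy f z)

/-- **Result.** Let `f n` be real solutions of `-y²(∂x² + ∂y²) f = (1/4 + t_n²) f` on the upper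
half plane, `t_n → ∞`, satisfying microlocal quantum unique ergodicity. Then for every open set
`U` of the upper half plane, every continuous `ψ ≥ 0` on `U` and every `m ≥ 0`,
`liminf ∫_U ψ f^{2(m+3)} dμ ≥ 11 (11/3)^m ∫_U ψ dμ`. For `m = 0` this is the bound `11` for the
sixth moment. -/
theorem result (t : ℕ → ℝ) (ht : Tendsto t atTop atTop) (f : ℕ → ℂ → ℝ)
    (hf : ∀ n, ContDiffOn ℝ ∞ (f n) HH)
    (heq : ∀ n, ∀ z ∈ HH,
      -(z.im ^ 2 * (dx (dx (f n)) z + dy (dy (f n)) z)) = (1 / 4 + t n ^ 2) * f n z)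
    (hqe : ∀ φ, TF HH φ → ∀ k : ℕ, Tendsto (fun n => ∫ z, ((φ z / z.im ^ 2 : ℝ) : ℂ) *
      ((f n z : ℂ) * (RO (1 / 4 + t n ^ 2))^[k] (fun w => (f n w : ℂ)) z)) atTop
      (𝓝 (if k = 0 then ((∫ z, φ z / z.im ^ 2 : ℝ) : ℂ) else 0)))
    (m : ℕ) (U : Set ℂ) (hU : IsOpen U) (hUH : U ⊆ HH)
    (ψ : ℂ → ℝ) (hψ : ContinuousOn ψ U) (hψ0 : ∀ z ∈ U, 0 ≤ ψ z) :
    ENNReal.ofReal (11 * (11 / 3) ^ m) * ∫⁻ z in U, ENNReal.ofReal (ψ z / z.im ^ 2) ≤
      liminf (fun n => ∫⁻ z in U,
        ENNReal.ofReal (ψ z * f n z ^ (2 * (m + 3)) / z.im ^ 2)) atTop := by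
  have hHo : IsOpen HH := isOpen_lt continuous_const continuous_im
  have him : ContDiff ℝ ∞ (fun z : ℂ => z.im) := imCLM.contDiff
  have hRD : ∀ n, RO (1 / 4 + t n ^ 2) = DP (fun z => z.im) (1 / √(1 / 4 + t n ^ 2)) := by
    intro n
    funext g z
    simp only [RO, DP, dd]
    push_cast
    ring
  have hraw : Raw HH (fun z => z.im) (fun n => 1 / √(1 / 4 + t n ^ 2)) f := by
    refine ⟨fun n => by positivity, ?_, him.contDiffOn, fun z hz => hz, hf, fun n z hz => ?_,
      fun φ hφ k => ?_⟩
    · have h1 : Tendsto (fun n => 1 / 4 + t n ^ 2) atTop atTop :=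
        tendsto_atTop_add_const_left _ _ ((tendsto_pow_atTop two_ne_zero).comp ht)
      have h2 : Tendsto (fun n => √(1 / 4 + t n ^ 2)) atTop atTop :=
        Real.tendsto_sqrt_atTop.comp h1
      exact (h2.inv_tendsto_atTop).congr (fun n => by simp [one_div])
    · have h1 := heq n z hz
      have h2 : (1 / √(1 / 4 + t n ^ 2)) ^ 2 = 1 / (1 / 4 + t n ^ 2) := by
        rw [div_pow, Real.sq_sqrt (by positivity), one_pow]
      show (1 / √(1 / 4 + t n ^ 2)) ^ 2 * (z.im ^ 2 * (dx (dx (f n)) z + dy (dy (f n)) z)) +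
        f n z = 0
      rw [h2]
      have h3 : z.im ^ 2 * (dx (dx (f n)) z + dy (dy (f n)) z) =
          - ((1 / 4 + t n ^ 2) * f n z) := by linarith
      have h4 : (1 / 4 + t n ^ 2) ≠ 0 := by positivity
      rw [h3]
      field_simp
      ring
    · have hφ' := TF.mulc hHo hφ (him.pow 2).contDiffOn
      have h1 := hqe _ hφ' k
      have e : ∀ z : ℂ, φ z * z.im ^ 2 / z.im ^ 2 = φ z := by
        intro z
        by_cases hz : z ∈ HH
        · have : z.im ≠ 0 := ne_of_gt hz
          field_simp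
        · rw [TF.zero hφ hz]; simp
      simp only [e] at h1
      refine h1.congr fun n => ?_
      rw [hRD n]
  have him0 : ∀ z ∈ U, z.im ^ 2 ≠ 0 := fun z hz => by
    have : 0 < z.im := hUH hz
    positivity
  have key := fin_m hHo hraw m hU hUH (w := fun z => ψ z / z.im ^ 2)
    (hψ.div (him.continuous.continuousOn.pow 2) him0)
    (fun z hz => div_nonneg (hψ0 z hz) (sq_nonneg _))
  refine key.trans_eq ?_
  congr 1
  funext n
  refine lintegral_congr fun z => ?_
  congr 1
  ring

end Pool.Agent.Results.MP_a54f13_nt.SixthMoment
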