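import Pool.Agent.T9h62.SQ.VMain
import Pool.Agent.Results.MP_a54f13_nt.SharpPowerSpectrum

/-!
# The fourth moment and equidistribution just above the wavelength (MP_a54f13_nt)

The plane is `ℂ`, with the upper half plane `HH` and `dμ = dx dy / y²`. `dx f z`, `dy f z` are the
partial derivatives `fderiv ℝ f z 1`, `fderiv ℝ f z I`; `TF U φ` says that `φ : ℂ → ℝ` is smooth
with compact support contained in `U`. `RO lam f = lam^{-1/2} y (∂x f - i ∂y f)` is the normalised
frame derivative. The hypothesis `hqe` is quantum unique ergodicity in its microlocal form: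
`∫ φ f (RO^k f) dμ → ∫ φ dμ` for `k = 0`, and `→ 0` for `k ≥ 1`. It is a theorem for the
Hecke-Maass cusp forms of the problem.

`mean lam R g z` is the average of `g` over the disc with centre `z` and radius `R y / √lam`; the
hyperbolic radius of this disc is `R / √lam + O(1 / lam)`, so that `R / 2π` is the radius in units
of the wavelength of an eigenfunction of eigenvalue `lam`.

The theorem determines the mean square of the fluctuations of the local mass of `f²` in discs of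
radius `R` times `1 / √lam`, for every fixed `R`, in terms of the local fourth moment
`∫ ψ f⁴ dμ`: the fluctuations have the size predicted by the random wave model, plus
`(2 + bes (2R)²) / 3` times the defect `∫ ψ f⁴ dμ - 3 ∫ ψ dμ` of the fourth moment. Hence the case
`n = 4` of the problem is equivalent to equidistribution of the mass in mean square at every scale
which is large compared with the wavelength. No bound of the fourth moments is assumed.

Proof idea. The disc mean is an entire function of the Laplacian, up to errors of size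
`lam^{-1/2}` times `L¹` norms; a Volterra iteration of the radial equation, paired with a weight,
bounds the remainder of its Taylor expansion by `L²` norms of `L^k f²`. These norms, and the
mean squares of the Taylor polynomials, are given by the sharp power spectrum.
-/

set_option autoImplicit false
open MeasureTheory Filter Topology Complex
open scoped ContDiff

namespace Pool.Agent.Results.MP_a54f13_nt.SmallScaleEquidistribution

open Pool.Agent.W745.RW (TF dx dy lap)

/-- the open upper half plane -/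
def HH : Set ℂ := {z | 0 < z.im}

/-- the operator `f ↦ lam^{-1/2} y (∂x f - i ∂y f)` -/
noncomputable def RO (lam : ℝ) (f : ℂ → ℂ) (z : ℂ) : ℂ :=
  ((z.im / √lam : ℝ) : ℂ) * (dx f z - I * dy f z)

/-- the average of `g` over the disc with centre `z` and radius `R (im z) / √lam` -/
noncomputable def mean (lam R : ℝ) (g : ℂ → ℝ) (z : ℂ) : ℝ :=
  ⨍ w in Metric.ball (0 : ℂ) 1, g (z + ((R * z.im / √lam : ℝ) : ℂ) * w)

/-- the average of `cos (x u)` over the unit disc `{(u, v)}`, that is `2 J₁(x) / x` -/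
noncomputable def bes (x : ℝ) : ℝ := ⨍ w in Metric.ball (0 : ℂ) 1, Real.cos (x * w.re)

/-- the variance of the average over a disc of radius `R` of the square of the random wave with
covariance `J₀`: `π⁻¹ ∫_0^{2π} bes (R √(2 - 2 cos θ))² dθ` -/
noncomputable def var (R : ℝ) : ℝ :=
  1 / Real.pi * ∫ θ in (0 : ℝ)..(2 * Real.pi), bes (R * √(2 - 2 * Real.cos θ)) ^ 2

/-- the mean square deviation from `1` of the local masses of `f²` -/
noncomputable def dev (lam R : ℝ) (f : ℂ → ℝ) (ψ : ℂ → ℝ) : ℝ :=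
  ∫ z, ψ z * (mean lam R (fun w => f w ^ 2) z - 1) ^ 2 / z.im ^ 2

lemma mean_eq {lam : ℝ} {g G : ℂ → ℝ} (hG : Continuous G) {R : ℝ} {z : ℂ}
    (he : ∀ w : ℂ, ‖w‖ ≤ 1 → g (z + ((1 / √lam * z.im * R : ℝ) : ℂ) * w) =
      G (z + ((1 / √lam * z.im * R : ℝ) : ℂ) * w)) :
    mean lam R g z = Pool.Agent.T9h62.SQ.DM (1 / √lam) R G z := by
  rw [Pool.Agent.T9h62.SQ.DM_eq hG]
  unfold mean
  refine setAverage_congr_fun measurableSet_ball (Eventually.of_forall fun w hw => ?_)
  have h1 : R * z.im / √lam = 1 / √lam * z.im * R := by ring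
  have h2 : R * (1 / √lam * z.im) = 1 / √lam * z.im * R := by ring
  rw [h1, h2]
  exact he w (by rw [mem_ball_zero_iff] at hw; exact hw.le)

/-- **Result.** Let `f n` be real solutions of `-y²(∂x² + ∂y²) f = (1/4 + t_n²) f` on the upper
half plane, `t_n → ∞`, satisfying microlocal quantum unique ergodicity.
(1) For every `R > 0`, every test function `ψ` and every compact set `K` which is a neighbourhood
of the support of `ψ`, `∫ ψ (mean_R f² - 1)² dμ` equals
`var R ∫ ψ dμ + (2 + bes (2R)²) / 3 (∫ ψ f⁴ dμ - 3 ∫ ψ dμ)` up to an error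
`o(1 + ∫_K f⁴ dμ)`.
(2) `var R` and `bes R` tend to zero as `R → ∞`.
(3) The following are equivalent:
(a) the fourth moments are Gaussian: `∫ ψ f⁴ dμ → 3 ∫ ψ dμ` for all test functions;
(b) for all `R > 0`, `∫ ψ (mean_R f² - 1)² dμ` tends to the value for the random wave;
(c) this holds for a single `R ≥ 3/2`, and nonnegative `ψ`;
(d) equidistribution in mean square just above the wavelength: for all nonnegative `ψ` and
`ε > 0`, if `R` is large enough, then `∫ ψ (mean_R f² - 1)² dμ ≤ ε` for all large `n`. -/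
theorem result (t : ℕ → ℝ) (ht : Tendsto t atTop atTop) (f : ℕ → ℂ → ℝ)
    (hf : ∀ n, ContDiffOn ℝ ∞ (f n) HH)
    (heq : ∀ n, ∀ z ∈ HH,
      -(z.im ^ 2 * (dx (dx (f n)) z + dy (dy (f n)) z)) = (1 / 4 + t n ^ 2) * f n z)
    (hqe : ∀ φ, TF HH φ → ∀ k : ℕ, Tendsto (fun n => ∫ z, ((φ z / z.im ^ 2 : ℝ) : ℂ) *
      ((f n z : ℂ) * (RO (1 / 4 + t n ^ 2))^[k] (fun w => (f n w : ℂ)) z)) atTop
      (𝓝 (if k = 0 then ((∫ z, φ z / z.im ^ 2 : ℝ) : ℂ) else 0))) :
    (∀ R, 0 < R → ∀ ψ, TF HH ψ → ∀ K, IsCompact K → K ⊆ HH → tsupport ψ ⊆ interior K →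
      Tendsto (fun n => (dev (1 / 4 + t n ^ 2) R (f n) ψ - var R * (∫ z, ψ z / z.im ^ 2) -
        (2 + bes (2 * R) ^ 2) / 3 *
          ((∫ z, ψ z * f n z ^ 4 / z.im ^ 2) - 3 * ∫ z, ψ z / z.im ^ 2)) /
        (1 + ∫ z in K, f n z ^ 4 / z.im ^ 2)) atTop (𝓝 0)) ∧
    (Tendsto var atTop (𝓝 0) ∧ Tendsto bes atTop (𝓝 0)) ∧
    List.TFAE [
      ∀ ψ, TF HH ψ → Tendsto (fun n => ∫ z, ψ z * f n z ^ 4 / z.im ^ 2) atTop
        (𝓝 (3 * ∫ z, ψ z / z.im ^ 2)),
      ∀ R, 0 < R → ∀ ψ, TF HH ψ → Tendsto (fun n => dev (1 / 4 + t n ^ 2) R (f n) ψ) atTop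
        (𝓝 (var R * ∫ z, ψ z / z.im ^ 2)),
      ∃ R, 3 / 2 ≤ R ∧ ∀ ψ, TF HH ψ → (∀ z, 0 ≤ ψ z) →
        Tendsto (fun n => dev (1 / 4 + t n ^ 2) R (f n) ψ) atTop
          (𝓝 (var R * ∫ z, ψ z / z.im ^ 2)),
      ∀ ψ, TF HH ψ → (∀ z, 0 ≤ ψ z) → ∀ ε, 0 < ε → ∃ R0, ∀ R, R0 ≤ R →
        ∀ᶠ n in atTop, dev (1 / 4 + t n ^ 2) R (f n) ψ ≤ ε] := by
  have hpos : ∀ n, 0 < 1 / 4 + t n ^ 2 := fun n => by positivity
  have hlam : Tendsto (fun n => 1 / 4 + t n ^ 2) atTop atTop :=
    tendsto_atTop_add_const_left _ _ ((tendsto_pow_atTop two_ne_zero).comp ht)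
  have H : Pool.Agent.T9h62.SQ.Dat (fun n => 1 / 4 + t n ^ 2) f := by
    refine ⟨hpos, hlam, hf, fun n z hz => ?_, fun φ hφ => ?_, fun ψ hψ F => ?_⟩
    · have h1 := heq n z hz
      have h2 : lap (f n) z = dx (dx (f n)) z + dy (dy (f n)) z := rfl
      rw [h2]; linarith
    · have tψ : TF HH (fun z => φ z * z.im ^ 2) :=
        Pool.Agent.TH294.RS.TF.mulc Pool.Agent.T9h62.SQ.HH_open hφ
          ((imCLM.contDiff.pow 2).contDiffOn)
      have h1 := (Complex.continuous_re.tendsto _).comp (hqe _ tψ 0)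
      have key : ∀ z, φ z * z.im ^ 2 / z.im ^ 2 = φ z := by
        intro z
        by_cases hz : z ∈ HH
        · have : z.im ≠ 0 := (show 0 < z.im from hz).ne'
          field_simp
        · rw [Pool.Agent.TH294.RS.TF.zero hφ hz]; simp
      simp only [key, if_true, Complex.ofReal_re, Function.iterate_zero, id_eq] at h1
      refine h1.congr fun n => ?_
      simp only [Function.comp_def]
      have e : ∀ z, ((φ z : ℝ) : ℂ) * ((f n z : ℂ) * (f n z : ℂ)) =
          ((φ z * f n z ^ 2 : ℝ) : ℂ) := by intro z; push_cast; ring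
      simp only [e]
      rw [integral_complex_ofReal, Complex.ofReal_re]
    · have h1 := Pool.Agent.Results.MP_a54f13_nt.SharpPowerSpectrum.result t ht f hf heq hqe ψ hψ F
      refine h1.congr fun n => ?_
      have e : ∀ z, f n z ^ 4 = (f n z ^ 2) ^ 2 := fun z => by ring
      simp only [e]
      rfl
  have eI : ∀ n ψ, Pool.Agent.T9h62.SQ.I4 (f n) ψ = ∫ z, ψ z * f n z ^ 4 / z.im ^ 2 := by
    intro n ψ
    unfold Pool.Agent.T9h62.SQ.I4
    congr 1; funext z; ring
  have eA : ∀ ψ, Pool.Agent.T9h62.SQ.Ar ψ = ∫ z, ψ z / z.im ^ 2 := fun ψ => rfl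
  have eb : bes = Pool.Agent.T9h62.SQ.jj := rfl
  have ev : var = Pool.Agent.T9h62.SQ.vr := rfl
  have eV : ∀ R, 0 < R → ∀ ψ, TF HH ψ → ∀ᶠ n in atTop,
      dev (1 / 4 + t n ^ 2) R (f n) ψ = Pool.Agent.T9h62.SQ.Vn (1 / 4 + t n ^ 2) R (f n) ψ := by
    intro R hR ψ hψ
    obtain ⟨χ, U1, hχ, hχ0, hχ2, hU1, hχ1, hsub⟩ := Pool.Agent.T9h62.SQ.nice_cutoff hψ
    filter_upwards [Pool.Agent.T9h62.SQ.discs hψ.2.1 hU1 hsub R H.hpos H.hlim] with n h2
    unfold dev Pool.Agent.T9h62.SQ.Vn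
    congr 1; funext z
    by_cases hz : ψ z = 0
    · rw [hz]; ring
    · have tG : TF HH (fun z => χ z * f n z ^ 2) :=
        Pool.Agent.TH294.RS.TF.mulc Pool.Agent.T9h62.SQ.HH_open hχ ((hf n).pow 2)
      have h3 := h2 z hz
      have e1 : mean (1 / 4 + t n ^ 2) R (fun w => f n w ^ 2) z =
          Pool.Agent.T9h62.SQ.DM (1 / √(1 / 4 + t n ^ 2)) R (fun z => χ z * f n z ^ 2) z := by
        refine mean_eq tG.1.continuous fun w hw => ?_
        rw [hχ1 _ (h3 R ⟨hR.le, le_rfl⟩ w hw), one_mul]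
      have e2 : Pool.Agent.T9h62.SQ.DM (1 / √(1 / 4 + t n ^ 2)) R (fun w => f n w ^ 2) z =
          Pool.Agent.T9h62.SQ.DM (1 / √(1 / 4 + t n ^ 2)) R (fun z => χ z * f n z ^ 2) z := by
        refine Pool.Agent.T9h62.SQ.DM_congr (fun s hs w hw => ?_) hR.le
        rw [hχ1 _ (h3 s hs w hw), one_mul]
      rw [e1, e2]
  refine ⟨fun R hR ψ hψ K hK hKH hsub => ?_, ⟨?_, ?_⟩, ?_⟩
  · have h1 := Pool.Agent.T9h62.SQ.V_main H hR hψ hK hKH hsub
    refine h1.congr' ?_
    filter_upwards [eV R hR ψ hψ] with n hn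
    rw [hn, eI, eA, eb, ev]
  · rw [ev]; exact Pool.Agent.T9h62.SQ.vr_tendsto
  · rw [eb]; exact Pool.Agent.T9h62.SQ.jj_tendsto
  · have hab : (∀ ψ, TF HH ψ → Tendsto (fun n => ∫ z, ψ z * f n z ^ 4 / z.im ^ 2) atTop
        (𝓝 (3 * ∫ z, ψ z / z.im ^ 2))) → ∀ R, 0 < R → ∀ ψ, TF HH ψ →
        Tendsto (fun n => Pool.Agent.T9h62.SQ.Vn (1 / 4 + t n ^ 2) R (f n) ψ) atTop
        (𝓝 (Pool.Agent.T9h62.SQ.vr R * Pool.Agent.T9h62.SQ.Ar ψ)) := by
      intro ha R hR ψ hψ
      refine Pool.Agent.T9h62.SQ.a_b H (fun ψ hψ => ?_) hR hψ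
      refine (ha ψ hψ).congr fun n => (eI n ψ).symm
    tfae_have 1 → 2 := by
      intro ha R hR ψ hψ
      refine (hab ha R hR ψ hψ).congr' ?_
      filter_upwards [eV R hR ψ hψ] with n hn
      exact hn.symm
    tfae_have 2 → 3 := fun h => ⟨3 / 2, le_rfl, fun ψ hψ _ => h _ (by norm_num) ψ hψ⟩
    tfae_have 3 → 1 := by
      rintro ⟨R, hR, hc⟩ ψ hψ
      have hR0 : 0 < R := by linarith
      have h1 := Pool.Agent.T9h62.SQ.c_a H hR (fun ψ hψ hψ0 => by
        refine (hc ψ hψ hψ0).congr' ?_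
        filter_upwards [eV R hR0 ψ hψ] with n hn
        exact hn) ψ hψ
      refine h1.congr fun n => eI n ψ
    tfae_have 2 → 4 := by
      intro hb ψ hψ hψ0 ε hε
      obtain ⟨R0, hR0⟩ := Pool.Agent.T9h62.SQ.b_d (lam := fun n => 1 / 4 + t n ^ 2) (f := f)
        (fun R hR ψ hψ => by
          refine (hb R hR ψ hψ).congr' ?_
          filter_upwards [eV R hR ψ hψ] with n hn
          exact hn) ψ hψ hψ0 ε hε
      refine ⟨max R0 1, fun R hR => ?_⟩
      filter_upwards [hR0 R ((le_max_left _ _).trans hR),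
        eV R (by linarith [(le_max_right R0 1).trans hR]) ψ hψ] with n h1 h2
      rw [h2]; exact h1
    tfae_have 4 → 1 := by
      intro hd ψ hψ
      have h1 := Pool.Agent.T9h62.SQ.d_a H (fun ψ hψ hψ0 ε hε => by
        obtain ⟨R0, hR0⟩ := hd ψ hψ hψ0 ε hε
        refine ⟨max R0 1, fun R hR => ?_⟩
        filter_upwards [hR0 R ((le_max_left _ _).trans hR),
          eV R (by linarith [(le_max_right R0 1).trans hR]) ψ hψ] with n h1 h2
        rw [← h2]; exact h1) ψ hψ
      refine h1.congr fun n => eI n ψ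
    tfae_finish

end Pool.Agent.Results.MP_a54f13_nt.SmallScaleEquidistribution
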